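import Pool.Agent.Q11.LM.Main

/-!
# Completions of precompact sequentially complete locally minimal nilpotent groups
-/

open Filter Topology

universe u

namespace Pool.Agent.Results.MP_0bb520_al.NilpotentCompletion

/-- `G` is locally minimal: there is a neighbourhood `U` of the identity such that any Hausdorff
group topology `σ` on `G` that is coarser than the given topology `τ` and in which `U` is still a
neighbourhood of the identity coincides with `τ`. -/
def LocallyMinimal (G : Type u) [Group G] [τ : TopologicalSpace G] : Prop :=
  ∃ U ∈ 𝓝 (1 : G), ∀ σ : TopologicalSpace G, @IsTopologicalGroup G σ _ → @T2Space G σ →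
    τ ≤ σ → U ∈ @nhds G σ 1 → σ = τ

/-- `G` is sequentially complete: every sequence which is Cauchy for the two-sided uniformity
converges in `G`. -/
def SequentiallyComplete (G : Type u) [Group G] [TopologicalSpace G] : Prop :=
  ∀ x : ℕ → G, Tendsto (fun p : ℕ × ℕ => (x p.1)⁻¹ * x p.2) atTop (𝓝 1) →
    Tendsto (fun p : ℕ × ℕ => x p.1 * (x p.2)⁻¹) atTop (𝓝 1) → ∃ a, Tendsto x atTop (𝓝 a)

/-- Let `G` be a nilpotent topological group which is precompact, sequentially complete and locally
minimal, and such that the connected component of the identity of `G` is trivial.  Then the
connected component of the identity of the completion of `G` is trivial.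

Here `K` is the completion: `K` is a compact Hausdorff group and `ι` is an embedding of topological
groups of `G` onto a dense subgroup of `K`, which means that `G` is precompact with Raikov
completion `K`. -/
theorem result (G : Type u) [Group G] [TopologicalSpace G] [IsTopologicalGroup G]
    (hnil : Group.IsNilpotent G) (hsc : SequentiallyComplete G) (hlm : LocallyMinimal G)
    (hc : connectedComponent (1 : G) = {1})
    (K : Type u) [Group K] [TopologicalSpace K] [IsTopologicalGroup K] [CompactSpace K] [T2Space K]
    (ι : G →* K) (he : IsEmbedding ι) (hd : DenseRange ι) :
    connectedComponent (1 : K) = {1} :=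
  Pool.Agent.Q11.LM.final G K ι he hd hnil hsc hlm hc

end Pool.Agent.Results.MP_0bb520_al.NilpotentCompletion
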